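import Pool.Agent.Helper40.PR.Defs

/-! # TK8: a Wigner type lemma -/

namespace PR

namespace TK8

/-- comparison of the two expansions -/
theorem re_eq {k s b β : ℂ} (hk : ‖k‖ = ‖s‖) (hb : ‖β‖ = ‖b‖) (h : ‖1 + k * β‖ = ‖1 + s * b‖) :
    (k * β).re = (s * b).re := by
  have h1 : ‖1 + k * β‖ ^ 2 = ‖1 + s * b‖ ^ 2 := by rw [h]
  have h2 : ‖k‖ ^ 2 * ‖β‖ ^ 2 = ‖s‖ ^ 2 * ‖b‖ ^ 2 := by rw [hk, hb]
  rw [← Complex.normSq_eq_norm_sq, ← Complex.normSq_eq_norm_sq, Complex.normSq_apply,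
    Complex.normSq_apply] at h1
  rw [← Complex.normSq_eq_norm_sq, ← Complex.normSq_eq_norm_sq, ← Complex.normSq_eq_norm_sq,
    ← Complex.normSq_eq_norm_sq, ← map_mul, ← map_mul, Complex.normSq_apply,
    Complex.normSq_apply] at h2
  simp only [Complex.add_re, Complex.one_re, Complex.add_im, Complex.one_im] at h1
  linarith

end TK8

/-- W1. `G` is a vector space of functionals. -/
theorem wigner_two {G : Type*} [AddCommGroup G] [Module ℂ G] (U W : G →ₗ[ℂ] ℂ)
    (C : ℂ → G →ₗ[ℂ] ℂ) (hUW : ∀ α β : ℂ, ∃ g, U g = α ∧ W g = β)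
    (h : ∀ g, ∃ a b : ℂ, ‖U g‖ = ‖a‖ ∧ ‖W g‖ = ‖b‖ ∧ ∀ s, ‖C s g‖ = ‖a + s * b‖) :
    ∃ κ : ℂ, ‖κ‖ = 1 ∧
      ((∀ s, ∃ p : ℂ, ‖p‖ = 1 ∧ C s = p • (U + (κ * s) • W)) ∨
       (∀ s, ∃ p : ℂ, ‖p‖ = 1 ∧ C s = p • (U + (κ * (starRingEnd ℂ) s) • W))) := by
  obtain ⟨g1, hU1, hW1⟩ := hUW 1 0
  obtain ⟨g2, hU2, hW2⟩ := hUW 0 1
  -- `C s` is a combination of `U` and `W`
  have hC : ∀ s g, C s g = C s g1 * U g + C s g2 * W g := by
    intro s g
    have h1 : C s (g - U g • g1 - W g • g2) = 0 := by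
      obtain ⟨a, b, ha, hb, hs⟩ := h (g - U g • g1 - W g • g2)
      have h2 : U (g - U g • g1 - W g • g2) = 0 := by simp [hU1, hU2]
      have h3 : W (g - U g • g1 - W g • g2) = 0 := by simp [hW1, hW2]
      rw [h2, norm_zero, eq_comm, norm_eq_zero] at ha
      rw [h3, norm_zero, eq_comm, norm_eq_zero] at hb
      rw [← norm_eq_zero, hs, ha, hb]
      simp
    rw [map_sub, map_sub, map_smul, map_smul, smul_eq_mul, smul_eq_mul] at h1
    linear_combination h1
  have hp : ∀ s, ‖C s g1‖ = 1 := by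
    intro s
    obtain ⟨a, b, ha, hb, hs⟩ := h g1
    rw [hU1, norm_one] at ha
    rw [hW1, norm_zero, eq_comm, norm_eq_zero] at hb
    rw [hs, hb, mul_zero, add_zero, ← ha]
  have hq : ∀ s, ‖C s g2‖ = ‖s‖ := by
    intro s
    obtain ⟨a, b, ha, hb, hs⟩ := h g2
    rw [hU2, norm_zero, eq_comm, norm_eq_zero] at ha
    rw [hW2, norm_one] at hb
    rw [hs, ha, zero_add, norm_mul, ← hb, mul_one]
  have hp0 : ∀ s, C s g1 ≠ 0 := by
    intro s h0
    have := hp s
    rw [h0, norm_zero] at this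
    exact zero_ne_one this
  set k : ℂ → ℂ := fun s => C s g2 / C s g1 with hk
  have hkn : ∀ s, ‖k s‖ = ‖s‖ := by
    intro s
    rw [hk]
    simp only [norm_div, hp, hq, div_one]
  -- the test with `β`
  have htest : ∀ β : ℂ, ∃ b : ℂ, ‖β‖ = ‖b‖ ∧ ∀ s, (k s * β).re = (s * b).re := by
    intro β
    obtain ⟨g, hUg, hWg⟩ := hUW 1 β
    obtain ⟨a, b, ha, hb, hs⟩ := h g
    rw [hUg, norm_one] at ha
    rw [hWg] at hb
    have ha0 : a ≠ 0 := by
      intro h0
      rw [h0, norm_zero] at ha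
      exact one_ne_zero ha
    have hb' : ‖β‖ = ‖b / a‖ := by rw [norm_div, ← ha, div_one, hb]
    refine ⟨b / a, hb', fun s => TK8.re_eq (hkn s) hb' ?_⟩
    have h1 : C s g = C s g1 * (1 + k s * β) := by
      rw [hC s g, hUg, hWg, hk]
      have := hp0 s
      field_simp
    have h2 : a + s * b = a * (1 + s * (b / a)) := by field_simp
    have h3 := hs s
    rw [h1, h2, norm_mul, norm_mul, hp, ← ha, one_mul, one_mul] at h3
    exact h3
  obtain ⟨b1, hb1, h1⟩ := htest 1
  obtain ⟨b2, hb2, h2⟩ := htest Complex.I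
  rw [norm_one] at hb1
  rw [Complex.norm_I] at hb2
  have hre : ∀ s, (k s).re = (s * b1).re := fun s => by rw [← h1 s, mul_one]
  have him : ∀ s, (k s).im = -(s * b2).re := fun s => by
    rw [← h2 s, Complex.mul_I_re, neg_neg]
  set P : ℂ := (b1 - Complex.I * b2) / 2 with hP
  set Q : ℂ := ((starRingEnd ℂ) b1 - Complex.I * (starRingEnd ℂ) b2) / 2 with hQ
  have hkPQ : ∀ s, k s = P * s + Q * (starRingEnd ℂ) s := by
    intro s
    have h5 : ((2 : ℂ)).re = 2 := rfl
    apply Complex.ext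
    · rw [hre, hP, hQ]
      simp only [Complex.add_re, Complex.mul_re, Complex.div_re, Complex.sub_re, Complex.sub_im,
        Complex.mul_im, Complex.I_re, Complex.I_im, Complex.conj_re, Complex.conj_im,
        Complex.div_im, Complex.re_ofNat, Complex.im_ofNat, Complex.normSq_ofNat]
      ring
    · rw [him, hP, hQ]
      simp only [Complex.add_im, Complex.mul_re, Complex.div_re, Complex.sub_re, Complex.sub_im,
        Complex.mul_im, Complex.I_re, Complex.I_im, Complex.conj_re, Complex.conj_im,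
        Complex.div_im, Complex.re_ofNat, Complex.im_ofNat, Complex.normSq_ofNat]
      ring
  have hsq : ∀ s, ‖P * s + Q * (starRingEnd ℂ) s‖ ^ 2 = ‖s‖ ^ 2 := fun s => by
    rw [← hkPQ, hkn]
  have e1 := hsq 1
  have e2 := hsq Complex.I
  have e3 := hsq (1 + Complex.I)
  simp only [← Complex.normSq_eq_norm_sq, Complex.normSq_apply, Complex.add_re, Complex.add_im,
    Complex.mul_re, Complex.mul_im, Complex.conj_re, Complex.conj_im, Complex.one_re,
    Complex.one_im, Complex.I_re, Complex.I_im] at e1 e2 e3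
  have f1 : P.re * Q.re + P.im * Q.im = 0 := by nlinarith
  have f2 : P.im * Q.re - P.re * Q.im = 0 := by nlinarith
  have f3 : P * (starRingEnd ℂ) Q = 0 := by
    apply Complex.ext
    · simp only [Complex.mul_re, Complex.conj_re, Complex.conj_im, Complex.zero_re]
      linarith
    · simp only [Complex.mul_im, Complex.conj_re, Complex.conj_im, Complex.zero_im]
      linarith
  have hn1 : ∀ s, ‖P * s + Q * (starRingEnd ℂ) s‖ = ‖s‖ := fun s => by rw [← hkPQ, hkn]
  have hform : ∀ (κ : ℂ) (t s : ℂ), k s = κ * t → C s = C s g1 • (U + (κ * t) • W) := by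
    intro κ t s hkt
    ext g
    rw [hC s g]
    have h6 : C s g2 = C s g1 * (κ * t) := by
      rw [← hkt, hk]
      have := hp0 s
      field_simp
    simp only [LinearMap.smul_apply, LinearMap.add_apply, smul_eq_mul]
    rw [h6]
    ring
  rcases mul_eq_zero.1 f3 with h0 | h0
  · refine ⟨Q, ?_, Or.inr fun s => ⟨C s g1, hp s, hform Q _ s ?_⟩⟩
    · have := hn1 1
      rw [h0] at this
      simpa using this
    · rw [hkPQ, h0, zero_mul, zero_add]
  · have h0' : Q = 0 := by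
      rw [← Complex.conj_conj Q, h0, map_zero]
    refine ⟨P, ?_, Or.inl fun s => ⟨C s g1, hp s, hform P _ s ?_⟩⟩
    · have := hn1 1
      rw [h0'] at this
      simpa using this
    · rw [hkPQ, h0', zero_mul, add_zero]

end PR
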